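import Pool.Agent.W900.CH.NELev
import Pool.Agent.Results.MP_153864_lc.GaugeThreshold

/-!
# How many strings of a random oracle have to be changed to collapse one of the inclusions
`NP ∪ coNP ⊆ PP ⊆ PSPACE`?

The number of changes is measured by a function `g`: the oracle `A` is obtained from `O` by changing,
for all large `n`, at most `g n` of the strings of length at most `n`. If `g n ≤ 2 ^ (n ^ ε)` for
every `ε > 0` and infinitely many `n`, then `NP^A ∪ coNP^A ≠ PP^A` and `PP^A ≠ PSPACE^A`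
(in fact `PP^A ⊄ PH^A` and `PSPACE^A ⊄ (PP^PH)^A / poly`) for almost every oracle `O` and all oracles
`A` that are obtained from `O` by at most `g` changes, however these changes depend on `O`.
Otherwise every oracle `O` can be changed, by at most `g` changes, into an oracle `A` with
`PSPACE^A = P^A`, so that both inclusions are equalities.

So the threshold is exactly at the functions which are not subexponential.
-/

set_option autoImplicit false

namespace Pool.Agent.Results.MP_153864_lc.ChangedStrings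

open Pool.Agent.NPC Pool.Agent.H620R2.Gauge Pool.Agent.H943R3.PP Pool.Agent.W900.CH
open Pool.Agent.H628R3.RO (randomOracle)
open MeasureTheory

theorem result (g : ℕ → ℝ) :
    ((∀ ε : ℝ, 0 < ε → ∃ᶠ n : ℕ in Filter.atTop, g n ≤ 2 ^ (n : ℝ) ^ ε) →
      ∀ᵐ O ∂randomOracle, ∀ A : Oracle, Close g O A →
        (∃ L, IsPP A L ∧ ¬ IsPH A L) ∧ (∃ L, IsPP A L ∧ ¬ (IsNP A L ∨ IsNP A Lᶜ)) ∧
        (∃ L, IsPSPACE A L ∧ ¬ WithAdvice (IsPPPH A) L) ∧ ∃ L, IsPSPACE A L ∧ ¬ IsPP A L) ∧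
    ((¬ ∀ ε : ℝ, 0 < ε → ∃ᶠ n : ℕ in Filter.atTop, g n ≤ 2 ^ (n : ℝ) ^ ε) →
      ∀ O : Oracle, ∃ A : Oracle, Close g O A ∧
        (∀ L, IsPSPACE A L ↔ IsP A L) ∧ (∀ L, IsPSPACE A L ↔ IsPP A L) ∧
        ∀ L, IsPP A L ↔ IsNP A L ∨ IsNP A Lᶜ) := by
  refine ⟨fun hg => ?_, fun hg O => ?_⟩
  · have h := ae_far_P (S := {A : Oracle | (∀ L, IsPP A L → IsPH A L) ∨
      (∀ L, IsPSPACE A L → WithAdvice (IsPPPH A) L)}) (fun f hf => by
        refine ((GaugeThreshold.result f).1 _ ?_ fun A hA => hA).2 hf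
        intro A hA
        exact Or.inr fun L hL => withAdvice_of_isPPPH (isPPPH_of_isPP (isPP_of_isP
          (isP_of_reduces (hA L hL))))) hg
    filter_upwards [h] with O hO A hA
    have h1 := hO A hA
    rw [not_or] at h1
    push Not at h1
    obtain ⟨⟨L, h2, h3⟩, L', h4, h5⟩ := h1
    refine ⟨⟨L, h2, h3⟩, ⟨L, h2, ?_⟩, ⟨L', h4, h5⟩, ⟨L', h4, ?_⟩⟩
    · rintro (h | h)
      · exact h3 (isPH_of_isNP h)
      · exact h3 (isPH_of_isNP_compl h)
    · exact fun h => h5 (withAdvice_of_isPPPH (isPPPH_of_isPP h))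
  · obtain ⟨A, h1, h2⟩ := exists_close_PSPACE hg O
    have h3 : ∀ L, IsPSPACE A L → IsP A L := fun L hL => isP_of_reduces (h2 L hL)
    refine ⟨A, h1, fun L => ⟨h3 L, fun h => h.isNP.isPSPACE⟩, fun L => ⟨fun h =>
      isPP_of_isP (h3 L h), isPSPACE_of_isPP⟩, fun L => ⟨fun h =>
      Or.inl (h3 L (isPSPACE_of_isPP h)).isNP, ?_⟩⟩
    rintro (h | h)
    · exact isPP_of_isP (h3 L h.isPSPACE)
    · have h4 := (h3 Lᶜ h.isPSPACE).compl
      rw [compl_compl] at h4
      exact isPP_of_isP h4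

end Pool.Agent.Results.MP_153864_lc.ChangedStrings
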