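import Pool.Agent.W895.BC.Maj

/-!
# `PP` against Boolean combinations of `NP`, `BPP` and `SBP` predicates in linear time

The model is the one of time-space lower bounds: branching programs on `n` Boolean variables,
`2 ^ s` nodes stand for space `s`, the number of queries for the time.

We give functions with computations of the type `PP` which are as simple as possible: a few
programs (at most `β n`, where `β` tends to infinity as slowly as one likes), each of which reads
the input once, in a fixed order, and has `β n * n` nodes, such that on every input more than half
of them give the right answer. These functions are in time `k n` and space `n / β n` no Boolean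
combinations of a constant number of predicates which are given by the number of accepting
programs (certificates, coin strings, ...) and by a threshold with a gap: the predicate is true if
at least `(1 + 1 / q) b` programs accept, and false if at most `b` programs do; here `b` may be as
small as a `2 ^ (- n / β n)` part of the number of the programs. Nondeterministic programs
(`b < 1`), their complements, randomised programs with two-sided error `1 / 2 - ε`, Merlin-Arthur
games with an error that is exponentially small in the length of the message of Merlin, and the
class `SBP` are of this form. So the functions separate `PP` from `NP ∪ coNP`, and even from the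
closure of `NP ∪ BPP ∪ SBP` under reductions with a constant number of queries, if time is linear
and space is sublinear.

The function: the majority of `2 d + 1` random quadratic forms in blocks (`d` a large constant, or
growing slowly).  The forms and the treatment of programs of length `k n` by rectangles (Ajtai;
Beame, Saks, Sun, Vee) are those of `Pool.Agent.H554R2` (results `NondetNotRandomised` and
`LinearTimeBothSides`, proved by many seats). New are the comparison of two adjacent layers on
large rectangles and the treatment of Boolean combinations: for a set `S` of the predicates the
inputs are weighted by the product, over `S`, of the `2 ρ`-th powers of the numbers of accepting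
programs, divided by `(1 + 1 / q) ^ ρ` for each element of `S`. For the set `S` of the largest
total weight nearly the whole weight is on inputs for which exactly the predicates in `S` are
true, and so the Boolean combination is constant there; but the weight is the number of tuples of
programs all of which accept, hence the inputs with the values `true` and `false` have about the
same weight.
-/

set_option autoImplicit false

namespace Pool.Agent.Results.MP_153864_lc.LinearTimeMajority

open Pool.Agent.H554R2.Sem Pool.Agent.H554R2.Coin

/-- The branching program `P` accepts the input `x` after at most `τ` queries. -/
def Acc {n : ℕ} (P : BP (Fin n) Bool) (τ : ℕ) (x : Pt n) : Prop :=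
  ∃ l, P.Comp x l true ∧ l.length ≤ τ

/-- The function `f` has a one-pass computation of the type `PP`: there are `J ≤ D` programs with
at most `D * n` nodes, each of which reads on all inputs the same variables in the same order, each
variable at most once, and on every input `x` more than half of the programs have the output
`f x`. -/
def OnePassPP (n D : ℕ) (f : Pt n → Bool) : Prop :=
  ∃ (J : ℕ) (V : Fin J → BP (Fin n) Bool), J ≤ D ∧
    (∀ j, Fintype.card (V j).State ≤ D * n ∧
      ∃ l : List (Fin n), l.Nodup ∧ ∀ x : Pt n, ∃ b, (V j).Comp x l b) ∧
    ∀ x, J < 2 * Nat.card {j // ∃ l, (V j).Comp x l (f x)}

/-- The function `f` is not a Boolean combination `g` of `s` predicates of the following kind, in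
time `k * n` and space `n / D`.  The predicate `i` is given by `I i` programs `P i ω` with at most
`2 ^ (n / D)` nodes and a threshold `b i > 0` with `I i ≤ b i * 2 ^ (n / D)`; it is true if at least
`(1 + 1 / q) * b i` of the programs accept within `τ ≤ k * n` queries, and false if at most `b i` of
them do; otherwise it is not defined.  So for some `x` one of the predicates is not defined, or
they are defined and `g` of their values is not `f x`. -/
def NoCombination (n k s q D : ℕ) (f : Pt n → Bool) : Prop :=
  ∀ τ ≤ k * n, ∀ (I : Fin s → ℕ) (b : Fin s → ℝ) (P : ∀ i, Fin (I i) → BP (Fin n) Bool),
    (∀ i, 0 < b i ∧ (I i : ℝ) ≤ b i * 2 ^ (n / D)) →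
    (∀ i ω, Fintype.card (P i ω).State ≤ 2 ^ (n / D)) → ∀ g : (Fin s → Bool) → Bool,
    ∃ x, (∃ i, b i < Nat.card {ω // Acc (P i ω) τ x} ∧
        q * Nat.card {ω // Acc (P i ω) τ x} < (q + 1) * b i) ∨
      g (fun i => decide ((q + 1) * b i ≤ q * Nat.card {ω // Acc (P i ω) τ x})) ≠ f x

/-- Let `β n` tend to infinity, as slowly as one likes.  There is a family of Boolean functions
`F n` such that for all constants `k`, `s`, `q` and all large `n` the function `F n` has a one-pass
computation of the type `PP` with at most `β n` programs with `β n * n` nodes, but is no Boolean
combination of `s` threshold predicates with the gap `1 + 1 / q` in time `k n` and space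
`n / β n`. -/
theorem result (β : ℕ → ℕ) (hβ : Filter.Tendsto β Filter.atTop Filter.atTop) :
    ∃ F : ∀ n, Pt n → Bool, ∀ k s q : ℕ, ∃ N, ∀ n ≥ N,
      OnePassPP n (β n) (F n) ∧ NoCombination n k s q (β n) (F n) := by
  obtain ⟨F, hF⟩ := Pool.Agent.W895.BC.maj_family β hβ
  refine ⟨F, fun k s q => ?_⟩
  obtain ⟨N, hN⟩ := hF k s q
  refine ⟨N, fun n hn => ⟨(hN n hn).1, ?_⟩⟩
  intro τ hτ I b P hI hP g
  obtain ⟨v, x, hx, h⟩ := (hN n hn).2 τ hτ I b P hI hP g
  refine ⟨x, h.imp (fun h => h) fun h1 h2 => h1 ?_⟩
  have hx' : F n x = v := hx
  rw [← hx']
  exact h2

end Pool.Agent.Results.MP_153864_lc.LinearTimeMajority
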