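import Mathlib
import Pool.Agent.H592R3.Defs
import Pool.Agent.W964.Pram.Machine
import Pool.Agent.W964.Pram.RandMachine
import Pool.Agent.W964.Pram.CntDefs
import Pool.Agent.W964.Pram.Ip.Verifier
import Pool.Agent.W964.Pram.Ip.SatVer
import Pool.Agent.W964.Pram.Ip.MajBoth
import Pool.Agent.W964.Pram.Ip.MajFinal

/-!
NP, co-NP and PP for ideal parallel random access machines (priority concurrent writing, arbitrary
instruction set, unbounded words and memory): the majority problem (does a CNF formula have at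
least `2 ^ (n - 1)` satisfying assignments?) is in the analogue of PP with one step and one
processor for every clause, but neither it nor its complement has interactive proofs (private
coins, arbitrarily many rounds, polynomially many bits) whose verifier uses `o (n / log n)` steps
and `2 ^ ((1 - ε) n)` processors for each message. More generally the same holds for every
threshold `k` with `2 ^ ((1 - ε) n)` replaced by `k ^ (1 - ε)`.
-/

set_option autoImplicit false

open SmallDepth Finset Filter Pool.Agent.W964.Pram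

namespace Pool.Agent.Results.MP_153864_lc.ParallelMajority

/-- 1. For all `n` and `M` some probabilistic machine with `M` processors accepts every CNF formula
`x` with `n` variables and `M` clauses after one step (or more) with probability
`numModels x / 2 ^ n`.

2. For `0 < ε ≤ 1` and `K` there is `C > 0` such that for `n ≥ 2` variables, `T ≥ 1` steps, `g` bits
of the prover, `C T log (n + g) ≤ w`, `M ≥ n 2 ^ w` clauses and `1 ≤ k ≤ 2 ^ (n - 1)` no verifier
with `P` processors separates formulas with `k` from formulas with `k - 1` satisfying assignments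
(in which all variables occur) with gap `2 ^ (-w / C)`: if `2 ^ w ≤ k`, `P ≤ k ^ (1 - ε)` and for
every formula with `k` satisfying assignments some prover is accepted with probability at least
`γ + 2 ^ (-w / C)`, then for some formula with `k - 1` satisfying assignments some prover is
accepted with probability greater than `γ`; and the same with `k` and `k - 1` exchanged if
`w ≤ n` and `P ≤ 2 ^ ((1 - ε) n)`.

3. For `0 < δ < 2`, `K`, `c` and `T n = o (n / log n)` there are numbers of clauses
`M n = n 2 ^ w n`, `w n = O (T n log n)`, such that for all large `n` verifiers with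
`(2 - δ) ^ n` times a polynomial in `M n` processors, `T n` steps for every message and `n ^ c`
bits of the prover do not have completeness `2 / 3` and soundness `1 / 3` for the set of all
formulas with at least `2 ^ (n - 1)` satisfying assignments, and not for its complement. -/
theorem result :
    (∀ n M : ℕ, ∃ R : RandMachine (Fin M × Fin n × Bool) M, R.Lists n ∧
      ∀ T, 1 ≤ T → ∀ x, R.success T x True = (numModels x : ℝ) / 2 ^ n) ∧
    (∀ (ε : ℝ) (K : ℕ), 0 < ε → ε ≤ 1 → ∃ C : ℝ, 0 < C ∧
      ∀ n T g w M k : ℕ, 2 ≤ n → 1 ≤ T → C * (T * Real.log (n + g)) ≤ w → n * 2 ^ w ≤ M →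
      1 ≤ k → k ≤ 2 ^ (n - 1) →
      ∀ (P : ℕ) (V : Verifier (Fin M × Fin n × Bool) P) (γ : ℝ),
        (2 ^ w ≤ k → (P : ℝ) ≤ (k : ℝ) ^ (1 - ε) → V.Lists (k ^ K) →
          (∀ x, AllOccur x → numModels x = k →
            ∃ π, γ + 2 ^ (-((w : ℝ) / C)) ≤ V.acc T g x π) →
          ∃ x, AllOccur x ∧ numModels x = k - 1 ∧ ∃ π, γ < V.acc T g x π) ∧
        (w ≤ n → (P : ℝ) ≤ 2 ^ ((1 - ε) * n) → V.Lists (2 ^ (K * n)) →
          (∀ x, AllOccur x → numModels x = k - 1 →
            ∃ π, γ + 2 ^ (-((w : ℝ) / C)) ≤ V.acc T g x π) →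
          ∃ x, AllOccur x ∧ numModels x = k ∧ ∃ π, γ < V.acc T g x π)) ∧
    (∀ (δ : ℝ) (K c : ℕ), 0 < δ → δ < 2 → ∀ T : ℕ → ℕ, (∀ n, 1 ≤ T n) →
      (fun n : ℕ => (T n : ℝ) * Real.log n) =o[atTop] (fun n : ℕ => (n : ℝ)) →
      ∃ w : ℕ → ℕ, (∃ C : ℝ, ∀ n, 2 ≤ n → (w n : ℝ) ≤ C * (T n * Real.log n)) ∧
        ∀ e : ℕ, ∀ᶠ n : ℕ in atTop,
          ∀ (P : ℕ) (V : Verifier (Fin (n * 2 ^ w n) × Fin n × Bool) P),
          (P : ℝ) ≤ (2 - δ) ^ n * (e * (((n * 2 ^ w n : ℕ) : ℝ)) ^ e) → V.Lists (2 ^ (K * n)) →
          ((∀ x, AllOccur x → 2 ^ (n - 1) ≤ numModels x →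
              ∃ π, 2 / 3 ≤ V.acc (T n) (n ^ c) x π) →
            ∃ x, AllOccur x ∧ numModels x = 2 ^ (n - 1) - 1 ∧
              ∃ π, 1 / 3 < V.acc (T n) (n ^ c) x π) ∧
          ((∀ x, AllOccur x → numModels x < 2 ^ (n - 1) →
              ∃ π, 2 / 3 ≤ V.acc (T n) (n ^ c) x π) →
            ∃ x, AllOccur x ∧ numModels x = 2 ^ (n - 1) ∧
              ∃ π, 1 / 3 < V.acc (T n) (n ^ c) x π)) :=
  ⟨pp_machine, fun ε K hε hε1 => cnt_both ε hε hε1 K,
    fun δ K c hδ hδ2 T hT hTo => maj_q1 δ hδ hδ2 K c T hT hTo⟩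

end Pool.Agent.Results.MP_153864_lc.ParallelMajority
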