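import Mathlib
import Pool.Agent.W977.CQ.Defs
import Pool.Agent.W902.Q.Stm
import Pool.Agent.W902.Q.Sig

/-!
# Two alternations against unbounded error, in linear time and linear space

The input consists of `n` words, elements of `ZMod p`. `OnePass n A w` is the type of one-pass
programs: the words are read once each, in an order that is fixed for the program, and the program
has `w` memory states. For a family `P i j` of such programs, the language of the inputs `x` with
`∃ i, ∀ j, (P i j).Accepts x` is decided by an alternating machine that makes two guesses
(an existential one and a universal one) and then one pass over the input with `w` memory states.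

`Machine n A D T` is the type of quantum machines with a memory with `D` basis states (`log D`
qubits) and `T` steps; in every step each basis state of the memory reads one word, at a position
that depends on the basis state (so superpositions read superpositions of words), and an arbitrary
quantum operation, which depends on the words read, is applied to the memory. Classical
probabilistic machines are a special case.

`Tells2 Q P θ`: the machine `Q` decides the language with unbounded error, the difference of the
probabilities of the two answers is at least `θ` (with the correct sign). A probabilistic machine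
that tosses at most `c` coins and is right with probability greater than `1/2` has
`θ ≥ 2 ^ (-c)`; postselection on an event of probability at least `2 ^ (-c)` is covered in the
same way.
-/

set_option autoImplicit false

open Filter

namespace Pool.Agent.Results.MP_153864_lc.TwoAlternations

open Pool.Agent.W902.Q Pool.Agent.W977.CQ

theorem result :
    (∀ k : ℕ, ∃ t m c₀ : ℕ, ∀ s p : ℕ, p.Prime → 2 ^ (c₀ * (s + 1)) ≤ p → ∃ N, ∀ n ≥ N,
      ∃ P : Fin t → Fin m → OnePass n (ZMod p) (p * p),
        ∀ (D T : ℕ) (Q : Machine n (ZMod p) D T), Q.Valid → T ≤ k * n → D ≤ 2 ^ (s * n) →
          ¬ Tells2 Q P ((1 / 2) ^ (s * n))) ∧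
    (∀ β : ℕ → ℕ, Tendsto β atTop atTop →
      ∃ (p t m : ℕ → ℕ)
        (P : ∀ n, Fin (t n) → Fin (m n) → OnePass n (ZMod (p n)) (p n * p n)),
        (∀ n, (p n).Prime) ∧ (∀ᶠ n in atTop, t n * m n * (p n * p n) ≤ β n) ∧
        ∀ K : ℕ, ∀ᶠ n in atTop, ∀ (D T : ℕ) (Q : Machine n (ZMod (p n)) D T), Q.Valid →
          T ≤ K * n → D ≤ 2 ^ (K * n) → ¬ Tells2 Q (P n) ((1 / 2) ^ (K * n))) :=
  ⟨fixedS, sequenceS⟩

end Pool.Agent.Results.MP_153864_lc.TwoAlternations
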